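import Pool.Agent.W811.Dos.Meas

/-!
Project DD (helper811), part UD: the upper dimension of a probability measure on the line is
characterised by finite families of rational intervals.
-/

set_option autoImplicit false

open MeasureTheory Filter Topology Set
open scoped ENNReal NNReal

namespace Pool.Agent.W382.Dos.Ud

open Pool.Agent.W811.Dos

theorem rat_int (x d s η : ℝ) (hd : 0 ≤ d) (hs : 0 < s) (hη : 0 < η) :
    ∃ I : ℚ × ℚ, I.1 < I.2 ∧ Icc (x - d) (x + d) ⊆ Ioo (I.1 : ℝ) (I.2 : ℝ) ∧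
      ((I.2 - I.1 : ℚ) : ℝ) ^ s < (2 * d) ^ s + η := by
  have hp : 0 ≤ (2 * d) ^ s := Real.rpow_nonneg (by linarith) s
  set l : ℝ := ((2 * d) ^ s + η) ^ (1 / s) with hl
  have h1 : 2 * d < l := by
    have e : 2 * d = ((2 * d) ^ s) ^ (1 / s) := by
      rw [← Real.rpow_mul (by linarith), mul_one_div_cancel hs.ne', Real.rpow_one]
    rw [e, hl]
    exact Real.rpow_lt_rpow hp (by linarith) (by positivity)
  have h2 : l ^ s = (2 * d) ^ s + η := by
    rw [hl, ← Real.rpow_mul (by linarith), one_div_mul_cancel hs.ne', Real.rpow_one]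
  obtain ⟨p, hp1, hp2⟩ := exists_rat_btwn (show x - l / 2 < x - d by linarith)
  obtain ⟨q, hq1, hq2⟩ := exists_rat_btwn (show x + d < x + l / 2 by linarith)
  have hpq : (p : ℝ) < q := by linarith
  refine ⟨(p, q), by exact_mod_cast hpq, ?_, ?_⟩
  · intro y hy
    exact ⟨lt_of_lt_of_le hp2 hy.1, lt_of_le_of_lt hy.2 hq1⟩
  · rw [← h2]
    refine Real.rpow_lt_rpow ?_ ?_ hs
    · push_cast
      linarith
    · push_cast
      linarith

theorem enlarge (A : Set ℝ) (hA : Metric.ediam A ≤ 1) {s η : ℝ} (hs : 0 < s) (hη : 0 < η) :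
    ∃ I : ℚ × ℚ, I.1 < I.2 ∧ A ⊆ Ioo (I.1 : ℝ) (I.2 : ℝ) ∧
      ENNReal.ofReal (((I.2 - I.1 : ℚ) : ℝ) ^ s) ≤
        ENNReal.ofReal (2 ^ s) * (⨆ _ : A.Nonempty, Metric.ediam A ^ s) + ENNReal.ofReal η := by
  rcases A.eq_empty_or_nonempty with rfl | hne
  · obtain ⟨I, h1, -, h3⟩ := rat_int 0 0 s η le_rfl hs hη
    refine ⟨I, h1, Set.empty_subset _, ?_⟩
    rw [mul_zero, Real.zero_rpow hs.ne', zero_add] at h3
    exact le_trans (ENNReal.ofReal_le_ofReal h3.le) le_add_self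
  · obtain ⟨x, hx⟩ := hne
    have hfin : Metric.ediam A ≠ ⊤ := ne_top_of_le_ne_top ENNReal.one_ne_top hA
    set d : ℝ := (Metric.ediam A).toReal with hd
    have hdA : Metric.ediam A = ENNReal.ofReal d := (ENNReal.ofReal_toReal hfin).symm
    have hd0 : 0 ≤ d := ENNReal.toReal_nonneg
    obtain ⟨I, h1, h2, h3⟩ := rat_int x d s η hd0 hs hη
    refine ⟨I, h1, ?_, ?_⟩
    · intro y hy
      apply h2
      have h4 : edist x y ≤ Metric.ediam A := Metric.edist_le_ediam_of_mem hx hy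
      rw [hdA, edist_dist] at h4
      have h5 : dist x y ≤ d := (ENNReal.ofReal_le_ofReal_iff hd0).1 h4
      rw [Real.dist_eq, abs_le] at h5
      exact ⟨by linarith, by linarith⟩
    · have h4 : (⨆ _ : A.Nonempty, Metric.ediam A ^ s) = Metric.ediam A ^ s :=
        iSup_pos ⟨x, hx⟩
      rw [h4, hdA, ENNReal.ofReal_rpow_of_nonneg hd0 hs.le, ← ENNReal.ofReal_mul (by positivity),
        ← Real.mul_rpow (by norm_num) hd0, ← ENNReal.ofReal_add (by positivity) hη.le]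
      exact ENNReal.ofReal_le_ofReal h3.le

theorem fwd (μ : Measure ℝ) [IsProbabilityMeasure μ] (t : ℝ≥0) (h : upDim μ ≤ t) (s : ℚ)
    (hs : (t : ℝ) < s) (ε : ℚ) (hε : 0 < ε) : ∃ F : Finset (ℚ × ℚ),
    (∀ I ∈ F, I.1 < I.2) ∧ (∑ I ∈ F, ((I.2 - I.1 : ℚ) : ℝ) ^ (s : ℝ)) < ε ∧
    ENNReal.ofReal (1 - ε) < μ (⋃ I ∈ F, Ioo (I.1 : ℝ) (I.2 : ℝ)) := by
  classical
  have hs0 : (0 : ℝ) < s := lt_of_le_of_lt t.2 hs
  have hε' : (0 : ℝ) < ε := by exact_mod_cast hε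
  set s' : ℝ≥0 := Real.toNNReal s with hs'
  have hcs : (s' : ℝ) = s := Real.coe_toNNReal _ hs0.le
  have hts : upDim μ < s' := by
    refine lt_of_le_of_lt h ?_
    have : t < s' := by
      rw [← NNReal.coe_lt_coe, hcs]
      exact hs
    exact_mod_cast this
  obtain ⟨S, hSm, hS0, hdim⟩ : ∃ S : Set ℝ, MeasurableSet S ∧ μ Sᶜ = 0 ∧ dimH S < s' := by
    unfold upDim at hts
    simp only [iInf_lt_iff] at hts
    obtain ⟨S, h1, h2, h3⟩ := hts
    exact ⟨S, h1, h2, h3⟩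
  have h0 : μH[(s' : ℝ)] S = 0 := hausdorffMeasure_of_dimH_lt hdim
  rw [hcs, Measure.hausdorffMeasure_apply] at h0
  simp only [ENNReal.iSup_eq_zero] at h0
  have h1 := h0 1 one_pos
  have h2s : (0 : ℝ) < 2 ^ (s : ℝ) := Real.rpow_pos_of_pos (by norm_num) _
  set δ : ℝ≥0∞ := ENNReal.ofReal (ε / 2 / 2 ^ (s : ℝ)) with hδ
  have hδ0 : 0 < δ := ENNReal.ofReal_pos.2 (by positivity)
  rw [← h1] at hδ0
  simp only [iInf_lt_iff] at hδ0
  obtain ⟨A, hSA, hAd, hAs⟩ := hδ0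
  obtain ⟨η, hη0, hηs⟩ := ENNReal.exists_pos_sum_of_countable
    (ε := ENNReal.ofReal (ε / 2)) (ENNReal.ofReal_pos.2 (by positivity)).ne' ℕ
  have hI : ∀ n, ∃ I : ℚ × ℚ, I.1 < I.2 ∧ A n ⊆ Ioo (I.1 : ℝ) (I.2 : ℝ) ∧
      ENNReal.ofReal (((I.2 - I.1 : ℚ) : ℝ) ^ (s : ℝ)) ≤
        ENNReal.ofReal (2 ^ (s : ℝ)) * (⨆ _ : (A n).Nonempty, Metric.ediam (A n) ^ (s : ℝ)) +
          ENNReal.ofReal (η n) := fun n =>
    enlarge (A n) (hAd n) hs0 (hη0 n)
  choose I hI1 hI2 hI3 using hI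
  have htot : ∑' n, ENNReal.ofReal ((((I n).2 - (I n).1 : ℚ) : ℝ) ^ (s : ℝ)) <
      ENNReal.ofReal ε := by
    calc ∑' n, ENNReal.ofReal ((((I n).2 - (I n).1 : ℚ) : ℝ) ^ (s : ℝ))
        ≤ ∑' n, (ENNReal.ofReal (2 ^ (s : ℝ)) *
            (⨆ _ : (A n).Nonempty, Metric.ediam (A n) ^ (s : ℝ)) + ENNReal.ofReal (η n)) :=
          ENNReal.tsum_le_tsum hI3
      _ = ENNReal.ofReal (2 ^ (s : ℝ)) *
            (∑' n, ⨆ _ : (A n).Nonempty, Metric.ediam (A n) ^ (s : ℝ)) +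
            ∑' n, ENNReal.ofReal (η n) := by
          rw [ENNReal.tsum_add, ENNReal.tsum_mul_left]
      _ ≤ ENNReal.ofReal (2 ^ (s : ℝ)) * δ + ∑' n, ENNReal.ofReal (η n) := by
          gcongr
      _ = ENNReal.ofReal (ε / 2) + ∑' n, (η n : ℝ≥0∞) := by
          congr 1
          · rw [hδ, ← ENNReal.ofReal_mul h2s.le]
            congr 1
            field_simp
          · congr 1
            funext n
            exact ENNReal.ofReal_coe_nnreal
      _ < ENNReal.ofReal (ε / 2) + ENNReal.ofReal (ε / 2) :=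
          ENNReal.add_lt_add_left ENNReal.ofReal_ne_top hηs
      _ = ENNReal.ofReal ε := by
          rw [← ENNReal.ofReal_add (by positivity) (by positivity)]
          congr 1
          ring
  have hU : μ (⋃ n, Ioo ((I n).1 : ℝ) ((I n).2 : ℝ)) = 1 := by
    refine le_antisymm prob_le_one ?_
    rw [← (prob_compl_eq_zero_iff hSm).1 hS0]
    exact measure_mono (hSA.trans (Set.iUnion_mono hI2))
  have hT := tendsto_measure_iUnion_accumulate (μ := μ)
    (f := fun n => Ioo ((I n).1 : ℝ) ((I n).2 : ℝ))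
  rw [hU] at hT
  have hlt : ENNReal.ofReal (1 - ε) < 1 := by
    rw [← ENNReal.ofReal_one]
    exact (ENNReal.ofReal_lt_ofReal_iff one_pos).2 (by linarith)
  obtain ⟨N, hN⟩ := (hT.eventually (lt_mem_nhds hlt)).exists
  refine ⟨(Finset.range (N + 1)).image I, ?_, ?_, ?_⟩
  · intro J hJ
    rw [Finset.mem_image] at hJ
    obtain ⟨n, -, rfl⟩ := hJ
    exact hI1 n
  · have hnn : ∀ J ∈ (Finset.range (N + 1)).image I, 0 ≤ ((J.2 - J.1 : ℚ) : ℝ) ^ (s : ℝ) := by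
      intro J hJ
      rw [Finset.mem_image] at hJ
      obtain ⟨n, -, rfl⟩ := hJ
      refine Real.rpow_nonneg ?_ _
      have := hI1 n
      exact_mod_cast (sub_pos.2 this).le
    have h3 : ∑ J ∈ (Finset.range (N + 1)).image I, ((J.2 - J.1 : ℚ) : ℝ) ^ (s : ℝ) ≤
        ∑ n ∈ Finset.range (N + 1), (((I n).2 - (I n).1 : ℚ) : ℝ) ^ (s : ℝ) :=
      Finset.sum_image_le_of_nonneg (f := fun J : ℚ × ℚ => ((J.2 - J.1 : ℚ) : ℝ) ^ (s : ℝ)) hnn
    refine lt_of_le_of_lt h3 ?_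
    have h4 : ENNReal.ofReal (∑ n ∈ Finset.range (N + 1),
        (((I n).2 - (I n).1 : ℚ) : ℝ) ^ (s : ℝ)) < ENNReal.ofReal ε := by
      rw [ENNReal.ofReal_sum_of_nonneg]
      · exact lt_of_le_of_lt (ENNReal.sum_le_tsum _) htot
      · intro n hn
        exact hnn _ (Finset.mem_image_of_mem I hn)
    exact (ENNReal.ofReal_lt_ofReal_iff hε').1 h4
  · refine lt_of_lt_of_le hN (measure_mono ?_)
    intro x hx
    rw [Set.mem_accumulate] at hx
    obtain ⟨n, hn, hx⟩ := hx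
    rw [Set.mem_iUnion₂]
    exact ⟨I n, Finset.mem_image_of_mem I (Finset.mem_range.2 (by omega)), hx⟩

theorem bwd (μ : Measure ℝ) [IsProbabilityMeasure μ] (s : ℚ) (hs0 : 0 < s)
    (h : ∀ ε : ℚ, 0 < ε → ∃ F : Finset (ℚ × ℚ),
      (∀ I ∈ F, I.1 < I.2) ∧ (∑ I ∈ F, ((I.2 - I.1 : ℚ) : ℝ) ^ (s : ℝ)) < ε ∧
      ENNReal.ofReal (1 - ε) < μ (⋃ I ∈ F, Ioo (I.1 : ℝ) (I.2 : ℝ))) :
    upDim μ ≤ (Real.toNNReal s : ℝ≥0∞) := by
  have hsR : (0 : ℝ) < s := by exact_mod_cast hs0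
  have hε : ∀ k : ℕ, (0 : ℚ) < (1 / 2) ^ k := fun k => by positivity
  choose F hF1 hF2 hF3 using fun k : ℕ => h ((1 / 2) ^ k) (hε k)
  set O : ℕ → Set ℝ := fun k => ⋃ I ∈ F k, Ioo (I.1 : ℝ) (I.2 : ℝ) with hO
  set U : ℕ → Set ℝ := fun m => ⋃ k, O (m + k) with hUdef
  have hOm : ∀ k, MeasurableSet (O k) := fun k =>
    Finset.measurableSet_biUnion _ fun _ _ => measurableSet_Ioo
  have hUm : ∀ m, MeasurableSet (U m) := fun m => MeasurableSet.iUnion fun k => hOm _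
  have hU1 : ∀ m, μ (U m) = 1 := by
    intro m
    refine le_antisymm prob_le_one ?_
    have hlim : Tendsto (fun k : ℕ => ENNReal.ofReal (1 - (1 / 2 : ℝ) ^ (m + k))) atTop
        (𝓝 (ENNReal.ofReal (1 - 0))) := by
      refine ENNReal.tendsto_ofReal (tendsto_const_nhds.sub ?_)
      have := (tendsto_pow_atTop_nhds_zero_of_lt_one (r := (1 / 2 : ℝ)) (by norm_num)
        (by norm_num)).comp (tendsto_add_atTop_nat m)
      refine this.congr fun k => ?_
      simp only [Function.comp_apply, add_comm]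
    rw [sub_zero, ENNReal.ofReal_one] at hlim
    refine le_of_tendsto hlim (Eventually.of_forall fun k => ?_)
    have h3 := hF3 (m + k)
    push_cast at h3
    exact h3.le.trans (measure_mono (Set.subset_iUnion (fun k => O (m + k)) k))
  set S : Set ℝ := ⋂ m, U m with hS
  have hSm : MeasurableSet S := MeasurableSet.iInter hUm
  have hS0 : μ Sᶜ = 0 := by
    rw [hS, Set.compl_iInter, measure_iUnion_null_iff]
    intro m
    exact (prob_compl_eq_zero_iff (hUm m)).2 (hU1 m)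
  -- lengths
  have hlen : ∀ k, ∀ I ∈ F k, 0 < ((I.2 - I.1 : ℚ) : ℝ) := by
    intro k I hI
    exact_mod_cast sub_pos.2 (hF1 k I hI)
  have hterm : ∀ k, ∀ I ∈ F k, ((I.2 - I.1 : ℚ) : ℝ) ^ (s : ℝ) ≤ (1 / 2 : ℝ) ^ k := by
    intro k I hI
    have h1 : ((I.2 - I.1 : ℚ) : ℝ) ^ (s : ℝ) ≤
        ∑ I ∈ F k, ((I.2 - I.1 : ℚ) : ℝ) ^ (s : ℝ) :=
      Finset.single_le_sum (f := fun I : ℚ × ℚ => ((I.2 - I.1 : ℚ) : ℝ) ^ (s : ℝ))
        (fun J hJ => Real.rpow_nonneg (hlen k J hJ).le _) hI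
    have h2 := hF2 k
    push_cast at h1 h2 ⊢
    linarith
  have hH : μH[(s : ℝ)] S ≤ 0 := by
    set r : ℕ → ℝ≥0∞ := fun m => ENNReal.ofReal (((1 / 2 : ℝ) ^ m) ^ (1 / (s : ℝ))) with hr
    have hp0 : Tendsto (fun m : ℕ => (1 / 2 : ℝ) ^ m) atTop (𝓝 0) :=
      tendsto_pow_atTop_nhds_zero_of_lt_one (by norm_num) (by norm_num)
    have hr0 : Tendsto r atTop (𝓝 0) := by
      have h1 : Tendsto (fun m : ℕ => ((1 / 2 : ℝ) ^ m) ^ (1 / (s : ℝ))) atTop
          (𝓝 ((0 : ℝ) ^ (1 / (s : ℝ)))) :=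
        hp0.rpow_const (Or.inr (by positivity))
      rw [Real.zero_rpow (by positivity)] at h1
      have h2 := ENNReal.tendsto_ofReal h1
      rwa [ENNReal.ofReal_zero] at h2
    have hle := Measure.hausdorffMeasure_le_liminf_tsum (X := ℝ) (β := ℕ)
      (ι := fun m => Σ k : ℕ, {I : ℚ × ℚ // I ∈ F (m + k)}) (s : ℝ) S (l := atTop) r hr0
      (fun m p => Ioo (p.2.1.1 : ℝ) (p.2.1.2 : ℝ))
      (Eventually.of_forall fun m p => by
        rw [Real.ediam_Ioo, hr]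
        refine ENNReal.ofReal_le_ofReal ?_
        obtain ⟨k, I, hI⟩ := p
        simp only
        have h1 := hterm (m + k) I hI
        have h2 := hlen (m + k) I hI
        have h3 : (1 / 2 : ℝ) ^ (m + k) ≤ (1 / 2 : ℝ) ^ m :=
          pow_le_pow_of_le_one (by norm_num) (by norm_num) (Nat.le_add_right m k)
        have h4 : ((I.2 - I.1 : ℚ) : ℝ) =
            (((I.2 - I.1 : ℚ) : ℝ) ^ (s : ℝ)) ^ (1 / (s : ℝ)) := by
          rw [← Real.rpow_mul h2.le, mul_one_div_cancel hsR.ne', Real.rpow_one]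
        have h5 : (((I.2 - I.1 : ℚ) : ℝ) ^ (s : ℝ)) ^ (1 / (s : ℝ)) ≤
            ((1 / 2 : ℝ) ^ m) ^ (1 / (s : ℝ)) :=
          Real.rpow_le_rpow (Real.rpow_nonneg h2.le _) (h1.trans h3) (by positivity)
        rw [← h4] at h5
        push_cast at h5
        exact h5)
      (Eventually.of_forall fun m => by
        intro x hx
        rw [hS, Set.mem_iInter] at hx
        have hxm := hx m
        simp only [hUdef, hO, Set.mem_iUnion] at hxm
        obtain ⟨k, I, hI, hxI⟩ := hxm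
        rw [Set.mem_iUnion]
        exact ⟨⟨k, ⟨I, hI⟩⟩, hxI⟩)
    refine hle.trans ?_
    have hsum : ∀ m : ℕ, (∑' p : (Σ k : ℕ, {I : ℚ × ℚ // I ∈ F (m + k)}),
        Metric.ediam (Ioo (p.2.1.1 : ℝ) (p.2.1.2 : ℝ)) ^ (s : ℝ)) ≤
        ENNReal.ofReal ((1 / 2 : ℝ) ^ m * 2) := by
      intro m
      rw [ENNReal.tsum_sigma']
      have hin : ∀ k : ℕ, (∑' b : {I : ℚ × ℚ // I ∈ F (m + k)},
          Metric.ediam (Ioo (b.1.1 : ℝ) (b.1.2 : ℝ)) ^ (s : ℝ)) ≤
          ENNReal.ofReal ((1 / 2 : ℝ) ^ (m + k)) := by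
        intro k
        rw [tsum_fintype, Finset.univ_eq_attach,
          Finset.sum_attach (F (m + k))
            (fun I : ℚ × ℚ => Metric.ediam (Ioo (I.1 : ℝ) (I.2 : ℝ)) ^ (s : ℝ))]
        have h1 : ∑ I ∈ F (m + k), Metric.ediam (Ioo (I.1 : ℝ) (I.2 : ℝ)) ^ (s : ℝ) =
            ∑ I ∈ F (m + k), ENNReal.ofReal (((I.2 - I.1 : ℚ) : ℝ) ^ (s : ℝ)) := by
          refine Finset.sum_congr rfl fun I hI => ?_
          have h2 := hlen (m + k) I hI
          push_cast at h2 ⊢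
          rw [Real.ediam_Ioo, ENNReal.ofReal_rpow_of_pos h2]
        rw [h1, ← ENNReal.ofReal_sum_of_nonneg
          (fun I hI => Real.rpow_nonneg (hlen (m + k) I hI).le _)]
        refine ENNReal.ofReal_le_ofReal ?_
        have h2 := hF2 (m + k)
        push_cast at h2 ⊢
        exact h2.le
      refine (ENNReal.tsum_le_tsum hin).trans ?_
      have hg : HasSum (fun k : ℕ => (1 / 2 : ℝ) ^ (m + k)) ((1 / 2 : ℝ) ^ m * 2) := by
        have := (hasSum_geometric_two).mul_left ((1 / 2 : ℝ) ^ m)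
        simpa only [pow_add] using this
      rw [← ENNReal.ofReal_tsum_of_nonneg (fun k => by positivity) hg.summable, hg.tsum_eq]
    have hlim : Tendsto (fun m : ℕ => ENNReal.ofReal ((1 / 2 : ℝ) ^ m * 2)) atTop (𝓝 0) := by
      have h2 := ENNReal.tendsto_ofReal (hp0.mul_const 2)
      rwa [zero_mul, ENNReal.ofReal_zero] at h2
    rw [← hlim.liminf_eq]
    exact liminf_le_liminf (Eventually.of_forall hsum)
  have hdim : dimH S ≤ (Real.toNNReal s : ℝ≥0∞) := by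
    refine dimH_le_of_hausdorffMeasure_ne_top ?_
    rw [Real.coe_toNNReal _ hsR.le, le_antisymm hH zero_le]
    exact ENNReal.zero_ne_top
  unfold upDim
  refine le_trans ?_ hdim
  exact iInf_le_of_le S (iInf_le_of_le hSm (iInf_le_of_le hS0 le_rfl))

theorem ud : TUd := by
  intro μ hμ t
  have := hμ
  constructor
  · intro h s hs ε hε
    exact fwd μ t h s hs ε hε
  · intro h
    refine le_of_forall_gt_imp_ge_of_dense fun a ha => ?_
    obtain ⟨q, hq0, hq1, hq2⟩ := ENNReal.lt_iff_exists_rat_btwn.1 ha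
    have hq1' : t < Real.toNNReal q := by exact_mod_cast hq1
    have hq3 : (t : ℝ) < q := by
      have := NNReal.coe_lt_coe.2 hq1'
      rwa [Real.coe_toNNReal _ (by exact_mod_cast hq0)] at this
    have hq4 : 0 < q := by
      have : (0 : ℝ) < q := lt_of_le_of_lt t.2 hq3
      exact_mod_cast this
    exact (bwd μ q hq4 (fun ε hε => h q hq3 ε hε)).trans hq2.le

end Pool.Agent.W382.Dos.Ud
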